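import Mathlib

set_option autoImplicit false

namespace Pool.Agent.Results.MP_8dd099_nt.Infinite

open Finset

noncomputable def KL (n : ℕ) : ℝ := ∑ d ∈ n.divisors, (d : ℝ) * Real.log (d / (2 * Nat.totient d))

def Primitive (n : ℕ) : Prop := 0 < n ∧ 0 ≤ KL n ∧ ∀ d, 0 < d → d ∣ n → d < n → KL d < 0

theorem sum_mul_prime {M : Type} [AddCommMonoid M] (f : ℕ → M) (m p : ℕ) (hp : p.Prime)
    (h : m.Coprime p) : ∑ d ∈ (m * p).divisors, f d = ∑ d ∈ m.divisors, (f (d * p) + f d) := by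
  rw [Nat.divisors_mul, mul_def, sum_image h.mul_injOn_divisors, sum_product]
  simp [hp.sum_divisors]

theorem sig (m p : ℕ) (hp : p.Prime) (h : m.Coprime p) :
    ∑ d ∈ (m * p).divisors, d = (∑ d ∈ m.divisors, d) * (p + 1) := by
  rw [sum_mul_prime (fun d => d) m p hp h, sum_mul]; simp [mul_add]

theorem KL_ge (m p : ℕ) (hp : p.Prime) (h : m.Coprime p) :
    (1 + p) * KL m + (∑ d ∈ m.divisors, d : ℕ) ≤ KL (m * p) := by
  rw [KL, KL, sum_mul_prime _ m p hp h, mul_sum, Nat.cast_sum, ← sum_add_distrib]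
  refine sum_le_sum (fun d hd => ?_)
  have d0 := Nat.pos_of_mem_divisors hd
  have t0 : (0 : ℝ) < Nat.totient d := by exact_mod_cast Nat.totient_pos.2 d0
  have d1 : (0 : ℝ) < d := by exact_mod_cast d0
  have p2 : (2 : ℝ) ≤ p := by exact_mod_cast hp.two_le
  rw [Nat.totient_mul (h.coprime_dvd_left (Nat.dvd_of_mem_divisors hd)), Nat.totient_prime hp]
  push_cast [Nat.cast_sub hp.one_le]
  have e : (d * p : ℝ) / (2 * (Nat.totient d * (p - 1))) =
      d / (2 * Nat.totient d) * (1 - 1 / p : ℝ)⁻¹ := by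
    have : (p : ℝ) - 1 ≠ 0 := by linarith
    field_simp
  have q0 : (0 : ℝ) < 1 - 1 / p := by rw [sub_pos, div_lt_one] <;> linarith
  rw [e, Real.log_mul (by positivity) (by positivity), Real.log_inv]
  have l := Real.log_le_sub_one_of_pos q0
  have : (d : ℝ) * p * (1 / p) = d := by field_simp
  nlinarith [mul_le_mul_of_nonneg_left l (show (0 : ℝ) ≤ d * p by positivity)]

theorem KL_two (a : ℕ) : KL (2 ^ a) = -Real.log 2 := by
  rw [KL, Nat.sum_divisors_prime_pow Nat.prime_two, sum_range_succ', sum_eq_zero]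
  · simp
  · intro i _
    rw [Nat.totient_prime_pow_succ Nat.prime_two]
    push_cast
    rw [show (2 : ℝ) ^ (i + 1) / (2 * (2 ^ i * 1)) = 1 by field_simp; ring]
    simp

theorem sig_two (a : ℕ) : ∑ d ∈ (2 ^ a).divisors, d + 1 = 2 * 2 ^ a := by
  rw [Nat.sum_divisors_prime_pow Nat.prime_two]
  induction a with
  | zero => simp
  | succ a ih => rw [sum_range_succ]; omega

theorem prim (n : ℕ) (h0 : 0 < n) (h : 0 ≤ KL n) : ∃ d, d ∣ n ∧ Primitive d := by
  induction n using Nat.strong_induction_on with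
  | _ n ih =>
    by_cases hp : Primitive n
    · exact ⟨n, dvd_rfl, hp⟩
    · simp only [Primitive, h0, h, true_and, not_forall, not_lt] at hp
      obtain ⟨d, d0, d1, d2, d3⟩ := hp
      obtain ⟨e, e1, e2⟩ := ih d d2 d0 d3
      exact ⟨e, e1.trans d1, e2⟩

theorem result : {n : ℕ | ∑ d ∈ n.divisors, d < 2 * n ∧ Primitive n}.Infinite := by
  rw [Set.infinite_iff_exists_gt]
  intro a
  have hs := sig_two (a + 4)
  have ha : a + 4 < 2 ^ (a + 4) := Nat.lt_two_pow_self
  have h16 : 2 ^ 4 ≤ 2 ^ (a + 4) := Nat.pow_le_pow_right (by norm_num) (by omega)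
  set s := ∑ d ∈ (2 ^ (a + 4)).divisors, d
  obtain ⟨q, hq, q1, q2⟩ := Nat.exists_prime_lt_and_le_two_mul s (by omega)
  have c1 : (2 ^ (a + 4)).Coprime q :=
    Nat.Coprime.pow_left _ ((Nat.coprime_primes Nat.prime_two hq).2 (by omega))
  obtain ⟨t, rfl⟩ : ∃ t, q = s + t := ⟨q - s, by omega⟩
  have t0 : 0 < t := by omega
  have n1 : s + t + 1 ≤ s * (s + t + 1) / t :=
    (Nat.le_div_iff_mul_le t0).2 (by rw [mul_comm]; exact Nat.mul_le_mul_right _ (by omega))
  obtain ⟨p, hp, p1, p2⟩ := Nat.exists_prime_lt_and_le_two_mul (s * (s + t + 1) / t) (by omega)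
  have c2 : (2 ^ (a + 4) * (s + t)).Coprime p := Nat.Coprime.mul_left
    (Nat.Coprime.pow_left _ ((Nat.coprime_primes Nat.prime_two hp).2 (by omega)))
    ((Nat.coprime_primes hq hp).2 (by omega))
  have p3 : s * (s + t + 1) < p * t := (Nat.div_lt_iff_lt_mul t0).1 p1
  have p4 : p * t ≤ 2 * (s * (s + t + 1)) := by
    have := Nat.div_mul_le_self (s * (s + t + 1)) t
    nlinarith
  have s1 := sig _ _ hq c1
  have s2 := sig _ _ hp c2
  have k1 := KL_ge _ _ hq c1
  have k2 := KL_ge _ _ hp c2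
  rw [s1] at s2 k2
  rw [KL_two] at k1
  have n0 : 0 < 2 ^ (a + 4) * (s + t) * p := by have := hp.pos; have := hq.pos; positivity
  have hK : 0 ≤ KL (2 ^ (a + 4) * (s + t) * p) := by
    refine le_trans ?_ k2
    have l : Real.log 2 < 0.7 := Real.log_two_lt_d9.trans (by norm_num)
    change (1 + ((s + t : ℕ) : ℝ)) * -Real.log 2 + (s : ℕ) ≤ _ at k1
    change 0 ≤ _ + ((s * (s + t + 1) : ℕ) : ℝ)
    have r1 : (31 : ℝ) ≤ s := by exact_mod_cast (show 31 ≤ s by omega)
    have r2 : (t : ℝ) ≤ s := by exact_mod_cast (show t ≤ s by omega)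
    have r3 : (0 : ℝ) ≤ t := by positivity
    have r4 : (p : ℝ) * t ≤ 2 * (s * (s + t + 1)) := by exact_mod_cast p4
    have r5 : (0 : ℝ) ≤ p := by positivity
    push_cast at k1 ⊢
    have k3 : -(0.45 * t : ℝ) ≤ KL (2 ^ (a + 4) * (s + t)) := by
      rcases le_total (0.3 * s : ℝ) t with h | h <;> nlinarith
    nlinarith [mul_le_mul_of_nonneg_left k3 (show (0 : ℝ) ≤ 1 + p by positivity)]
  obtain ⟨d, d1, d2⟩ := prim _ n0 hK
  refine ⟨d, ⟨?_, d2⟩, ?_⟩
  · have := Nat.abundancyIndex_le_of_dvd n0.ne' d1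
    have h2 : (2 ^ (a + 4) * (s + t) * p).abundancyIndex < 2 := by
      rw [Nat.abundancyIndex, div_lt_iff₀ (by exact_mod_cast n0), s2]
      norm_cast
      change s * (s + t + 1) * (p + 1) < _
      rw [← mul_assoc, ← mul_assoc, ← hs]
      nlinarith
    have h3 := this.trans_lt h2
    rw [Nat.abundancyIndex, div_lt_iff₀ (by exact_mod_cast d2.1)] at h3
    exact_mod_cast h3
  · by_contra hd
    have c3 : d.Coprime ((s + t) * p) := Nat.Coprime.mul_right
      (Nat.coprime_of_lt_prime d2.1.ne' (by omega) hq).symm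
      (Nat.coprime_of_lt_prime d2.1.ne' (by omega) hp).symm
    rw [mul_assoc] at d1
    obtain ⟨j, -, rfl⟩ := (Nat.dvd_prime_pow Nat.prime_two).1 (c3.dvd_of_dvd_mul_right d1)
    have := d2.2.1
    rw [KL_two] at this
    linarith [Real.log_two_gt_d9]

end Pool.Agent.Results.MP_8dd099_nt.Infinite
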